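import Pool.Agent.Run7.h506.TA.All2
import Pool.Agent.Run7.h506.TA.HessEq

/-!
# Accelerators in a thin tube: on every manifold of dimension `≥ 2` every Lagrangian can be changed,
for large velocities only, so that all its potential perturbations have escaping orbits

Coordinates `x = (x_0, x_1, …, x_m)`, `m ≥ 0`; everything is 1-periodic in `x_0` and in the time `t`.
`Tube m ε = {|x_i| < ε for i ≥ 1}` is a tube around the circle `x_1 = … = x_m = 0`; it may be a coordinate
tube around a closed curve in any manifold of dimension `m + 1`, since nothing outside the tube is used.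

The theorem: let `2 ≤ k ≤ ∞`, `0 < ε ≤ 1/4`, `R` a real number and `L₀` an arbitrary Lagrangian of class
`C^k` on the tube with positive definite fibre Hessian.  There is a Lagrangian `L` of class `C^k` on the
tube with positive definite fibre Hessian, equal to `L₀` for `‖v‖ ≤ R` and outside of the tube of radius
`ε/2` (so it extends by `L₀` to the whole manifold), superlinear if `L₀` is, satisfying the classical
criterion for completeness `|∂L/∂t| ≤ C (1 + |E|)`, `E = ∑ v_i ∂L/∂v_i - L`, if `L₀` does, such that for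
every `G` there are a time `t₀` and a nonempty open set `W` of positions in the tube of radius `ε/4` and
velocities with the following property.  For EVERY potential `f` of class `C²` with `|∂f/∂x_i| ≤ G`:

* every point of `W` is the initial condition at the time `t₀` of an orbit of `L + f` which is defined for
  all `t ≥ t₀`, stays in the tube of radius `ε/4` and satisfies `dx_0/dt ≥ t - 5/2`;
* every orbit of `L + f` which starts in `W` at the time `t₀` (on a manifold: of any extension of `L + f`)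
  never leaves the tube of radius `ε/4`, and `dx_0/dt ≥ t - 5/2`; so it tends to infinity.

Remark (not part of the formal statement).  Let `M` be a closed manifold of dimension `≥ 2` and `L₀` a
superlinear `C^k` Lagrangian on `TM × 𝕋` with positive definite fibre Hessian and
`|∂L₀/∂t| ≤ C (1 + |E|)`, for instance the kinetic energy of a Riemannian metric plus any function
`f(x,t)`.  Applied in a tube around a closed curve the theorem gives `L`, equal to `L₀` for `‖v‖ ≤ R` and
outside of the tube, which is Tonelli (the criterion bounds the energy by Gronwall's lemma), and for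
which the residual set `O(L)` of Arnold's question is all of `C^k(M × 𝕋)`.

The starting files have this for the torus (`StableAccelerator`, `DenseAccelerators`) and for products
of a torus and a manifold; there no confinement is needed.

## Proof

* The Hamiltonian is `H = h(x_0, p_0, t) - K(p_0) ∑ (1 + cos 2πx_i)/(4π²) + ∑ p_i²/2` (sums over `i ≥ 1`) with
  the accelerator `h = log ∑_j exp (j p - 3^|j| (3/4 + sin (2π(x - j t))/2π))` of the starting files and
  `K(p) = c (1 + p²)^(1/8)`.  For small `c` it is fibrewise convex: `K'' ≤ 0` for `|p| ≥ 2`, and `h_pp` is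
  bounded below for `|p| ≤ 2`.
* The acceleration of `(x_0, p_0)` is a one-dimensional fact which is very robust: errors `10⁻¹⁰` of the
  velocity and bounded errors of the force are allowed (`S_J1`, …, `S_STOP`), and the coupling `K'(p_0)` tends
  to zero.  Moreover `p_0` increases, exponentially.
* Confinement: `Z = (p_i²/2 + K (1 - cos 2πx_i)/(4π²))/K` satisfies `d/dt log (1/2 + Z) ≤ G/√K`, which is
  integrable (`S_CONF`).
* Legendre duality in several variables (`S_LEG2`), gluing of fibrewise convex functions (`S_GLUE2`), and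
  `|∂h/∂t| ≤ C (1 + |h|)` (`S_GRT`).

The pieces of the proof were written by helpers 18, 64, 88, 171, 181, 403, 591, 594, 623, 716, 727, 760,
781, 858.
-/

set_option autoImplicit false

namespace Pool.Agent.Results.MP_6acca1_an.DenseTubeAccelerators

open Set Filter Topology
open scoped ContDiff

/-- Positions, and velocities: `(x_0, x_1, …, x_m)`. -/
abbrev X (m : ℕ) : Type := Fin (m + 1) → ℝ

/-- The tube `|x_i| < ε`, `i ≥ 1`. -/
def Tube (m : ℕ) (ε : ℝ) : Set (X m) := {x | ∀ i : Fin m, |x i.succ| < ε}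

/-- A function of position, velocity and time as a function on the product. -/
def U {m : ℕ} (L : X m → X m → ℝ → ℝ) (q : X m × X m × ℝ) : ℝ := L q.1 q.2.1 q.2.2

/-- `L` is a Lagrangian of class `C^k` on the tube of radius `ε`, 1-periodic in `x_0` and in `t`, with
positive definite fibre Hessian. -/
def Lagrangian {m : ℕ} (k : ℕ∞) (ε : ℝ) (L : X m → X m → ℝ → ℝ) : Prop :=
  ContDiffOn ℝ k (U L) {q | q.1 ∈ Tube m ε} ∧
  (∀ x v t, x ∈ Tube m ε →
    L (Function.update x 0 (x 0 + 1)) v t = L x v t ∧ L x v (t + 1) = L x v t) ∧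
  ∀ (x v : X m) (t : ℝ), x ∈ Tube m ε → ∀ w : X m, w ≠ 0 →
    0 < deriv (deriv (fun s : ℝ => L x (v + s • w) t)) 0

/-- `L` is superlinear on the tube. -/
def Superlinear {m : ℕ} (ε : ℝ) (L : X m → X m → ℝ → ℝ) : Prop :=
  ∀ R : ℝ, ∃ B : ℝ, ∀ (x v : X m) (t : ℝ), x ∈ Tube m ε → R * ‖v‖ - B ≤ L x v t

/-- The partial derivative `∂L/∂v_i`. -/
noncomputable def dv {m : ℕ} (L : X m → X m → ℝ → ℝ) (i : Fin (m + 1)) (x v : X m) (t : ℝ) : ℝ :=
  deriv (fun s => L x (Function.update v i s) t) (v i)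

/-- The partial derivative `∂L/∂x_i`. -/
noncomputable def dx {m : ℕ} (L : X m → X m → ℝ → ℝ) (i : Fin (m + 1)) (x v : X m) (t : ℝ) : ℝ :=
  deriv (fun s => L (Function.update x i s) v t) (x i)

/-- The partial derivative `∂L/∂t`. -/
noncomputable def dt {m : ℕ} (L : X m → X m → ℝ → ℝ) (x v : X m) (t : ℝ) : ℝ :=
  deriv (fun s => L x v s) t

/-- The energy `∑ v_i ∂L/∂v_i - L`. -/
noncomputable def energy {m : ℕ} (L : X m → X m → ℝ → ℝ) (x v : X m) (t : ℝ) : ℝ :=
  ∑ i, v i * dv L i x v t - L x v t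

/-- The classical criterion for completeness, on the tube of radius `ε`: `|∂L/∂t| ≤ C (1 + |E|)`. -/
def EnergyCriterion {m : ℕ} (ε : ℝ) (L : X m → X m → ℝ → ℝ) : Prop :=
  ∃ C : ℝ, ∀ (x v : X m) (t : ℝ), x ∈ Tube m ε → |dt L x v t| ≤ C * (1 + |energy L x v t|)

/-- `f` is of class `C²` and `|∂f/∂x_i| ≤ G`. -/
def Potential {m : ℕ} (G : ℝ) (f : X m → ℝ → ℝ) : Prop :=
  ContDiff ℝ 2 (fun q : X m × ℝ => f q.1 q.2) ∧
  ∀ i x t, |deriv (fun s => f (Function.update x i s) t) (x i)| ≤ G

/-- `γ` is of class `C¹` at `t` and satisfies the Euler-Lagrange equations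
`d/dt ∂L/∂v_i (γ, γ', t) = ∂L/∂x_i (γ, γ', t)` at the time `t`. -/
def OrbitAt {m : ℕ} (L : X m → X m → ℝ → ℝ) (γ : ℝ → X m) (t : ℝ) : Prop :=
  (∀ᶠ s in 𝓝 t, DifferentiableAt ℝ γ s) ∧ ContinuousAt (deriv γ) t ∧
  ∀ i, HasDerivAt (fun s => dv L i (γ s) (deriv γ s) s) (dx L i (γ t) (deriv γ t) t) t

/-- All orbits of `L` which are in `W` at the time `t₀` tend to infinity in the tube of radius `ε/4`:
every point of `W` is the initial condition of such an orbit, defined for all `t ≥ t₀`, and an orbit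
with initial condition in `W` which is defined and in the tube of radius `ε` for `t₀ ≤ t < T` is in
the tube of radius `ε/4` for these times and satisfies `dx_0/dt ≥ t - 5/2`. -/
def Escapes {m : ℕ} (ε t₀ : ℝ) (W : Set (X m × X m)) (L : X m → X m → ℝ → ℝ) : Prop :=
  (∀ q ∈ W, ∃ γ : ℝ → X m, γ t₀ = q.1 ∧ deriv γ t₀ = q.2 ∧
    ∀ t, t₀ ≤ t → OrbitAt L γ t ∧ γ t ∈ Tube m (ε / 4) ∧ t - 5 / 2 ≤ deriv γ t 0) ∧
  ∀ (γ : ℝ → X m) (T : ℝ), (γ t₀, deriv γ t₀) ∈ W →
    (∀ t ∈ Ico t₀ T, γ t ∈ Tube m ε ∧ OrbitAt L γ t) →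
    ∀ t ∈ Ico t₀ T, γ t ∈ Tube m (ε / 4) ∧ t - 5 / 2 ≤ deriv γ t 0

/-- **Dense accelerators in a thin tube.** -/
theorem result (m : ℕ) (k : ℕ∞) (hk : 2 ≤ k) (ε : ℝ) (hε : 0 < ε) (hε4 : ε ≤ 1 / 4)
    (L₀ : X m → X m → ℝ → ℝ) (h₀ : Lagrangian k ε L₀) (R : ℝ) :
    ∃ L : X m → X m → ℝ → ℝ, Lagrangian k ε L ∧
      (∀ x v t, (x ∉ Tube m (ε / 2) ∨ ‖v‖ ≤ R) → L x v t = L₀ x v t) ∧
      (Superlinear ε L₀ → Superlinear ε L) ∧
      (EnergyCriterion ε L₀ → EnergyCriterion ε L) ∧
      ∀ G : ℝ, ∃ (t₀ : ℝ) (W : Set (X m × X m)), IsOpen W ∧ W.Nonempty ∧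
        (∀ q ∈ W, q.1 ∈ Tube m (ε / 4)) ∧
        ∀ f : X m → ℝ → ℝ, Potential G f → Escapes ε t₀ W (fun x v t => L x v t + f x t) := by
  have h₀' : Pool.Agent.Run7.h506.TA.OnTube k ε L₀ := by
    refine ⟨h₀.1, h₀.2.1, ?_⟩
    rintro ⟨x, v, t⟩ hq w hw
    rw [← Pool.Agent.Run7.h506.TA.hess_eq hk h₀.1 hq]
    exact h₀.2.2 x v t hq w hw
  obtain ⟨L, h1, h2, h3, h4, h5⟩ :=
    Pool.Agent.Run7.h506.TA.main2 m k ε hk hε hε4 L₀ h₀' R
  have h1' : Lagrangian k ε L := by
    refine ⟨h1.1, h1.2.1, fun x v t hx w hw => ?_⟩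
    rw [Pool.Agent.Run7.h506.TA.hess_eq hk h1.1 hx]
    exact h1.2.2 (x, v, t) hx w hw
  refine ⟨L, h1', h2, h3, h4, fun G => ?_⟩
  obtain ⟨t₀, W, a1, a2, a3, a4⟩ := h5 G
  exact ⟨t₀, W, a1, a2, a3, fun f hf => a4 f hf.1 hf.2⟩

end Pool.Agent.Results.MP_6acca1_an.DenseTubeAccelerators
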