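import Pool.Agent.Run7.h526.AC.Main

set_option autoImplicit false

/-!
# Robust accelerators in the tube around a closed curve

Let `S^1 × ℝ^m` have the coordinates `x = (x_0, …, x_m)`, `x_0` modulo 1. For all `ε > 0` and `R`
there is a `C^∞` function `W(x,v,t)`, periodic in `x_0` and `t`, supported in the tube `|x_i| < ε`
(`i ≠ 0`) and in the velocities with `v_0 > R`, such that `|v|^4 + 2|v|^2 + W` is fibrewise
strictly convex and such that for EVERY potential `f(x,t)` of class `C^2` with bounded gradient, of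
any size, the Euler-Lagrange flow of `|v|^4 + 2|v|^2 + W + f` has an open set of orbits which stay
in the tube and whose velocity tends to infinity. The Lagrangian only matters in the tube and for
`v_0 > R`: outside it is arbitrary, so the tube may be a piece of any manifold and the Lagrangian
any given one for bounded velocities.

Idea: `W = a(S) ψ(|z|²/δ²) ψ(|v - S e_0|²) (2 z_0 - |z|²/2)`, `z = x - c e_0`, is a bump which travels
with the accelerating particle, `c = 2nt + t²`, `S = 2(n + t)`; the bumps of all `n ∈ ℤ` fit together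
to a periodic function. Near the particle the Lagrangian in the moving frame is `β(t)` times a
Lagrangian with a stable equilibrium, up to terms of the good sign, where `β = 12 S² + 4` is the
mass; the mass grows quadratically, so that the energy divided by `β` is a Lyapunov function up to
the integrable error `O(1/β)` of the force of `f`.
-/

namespace Pool.Agent.Results.MP_6acca1_an.TubeAccelerator

open Set Filter Topology
open scoped ContDiff

/-- the tube `|x_i| < ε` for `i ≠ 0` around the closed curve `{x_i = 0 for i ≠ 0}` -/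
def InTube {m : ℕ} (ε : ℝ) (x : Fin (m + 1) → ℝ) : Prop := ∀ i, i ≠ 0 → |x i| < ε

/-- the Lagrangian `|v|^4 + 2|v|^2` -/
noncomputable def quartic {m : ℕ} (v : Fin (m + 1) → ℝ) : ℝ :=
  (∑ i, v i ^ 2) ^ 2 + 2 * ∑ i, v i ^ 2

/-- `W(x,v,t)` is periodic with period 1 in `x_0` and in `t`: a function on
`T(S^1 × ℝ^m) × 𝕋`. -/
def Periodic {m : ℕ} (W : (Fin (m + 1) → ℝ) → (Fin (m + 1) → ℝ) → ℝ → ℝ) : Prop :=
  ∀ (x v : Fin (m + 1) → ℝ) (t : ℝ) (k l : ℤ),
    W (fun i => x i + if i = 0 then (k : ℝ) else 0) v (t + l) = W x v t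

/-- The derivative `∂L/∂v_i`. -/
noncomputable def dv {m : ℕ} (L : (Fin (m + 1) → ℝ) → (Fin (m + 1) → ℝ) → ℝ → ℝ)
    (i : Fin (m + 1)) (x v : Fin (m + 1) → ℝ) (t : ℝ) : ℝ :=
  deriv (fun s => L x (Function.update v i s) t) (v i)

/-- The derivative `∂L/∂x_i`. -/
noncomputable def dx {m : ℕ} (L : (Fin (m + 1) → ℝ) → (Fin (m + 1) → ℝ) → ℝ → ℝ)
    (i : Fin (m + 1)) (x v : Fin (m + 1) → ℝ) (t : ℝ) : ℝ :=
  deriv (fun s => L (Function.update x i s) v t) (x i)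

/-- The derivative `∂f/∂x_i`. -/
noncomputable def df {m : ℕ} (f : (Fin (m + 1) → ℝ) → ℝ → ℝ) (i : Fin (m + 1))
    (x : Fin (m + 1) → ℝ) (t : ℝ) : ℝ :=
  deriv (fun s => f (Function.update x i s) t) (x i)

/-- `γ` is differentiable and satisfies the Euler-Lagrange equations
`d/dt ∂L/∂v_i (γ, γ', t) = ∂L/∂x_i (γ, γ', t)` at the time `t`. -/
def EulerLagrangeAt {m : ℕ} (L : (Fin (m + 1) → ℝ) → (Fin (m + 1) → ℝ) → ℝ → ℝ)
    (γ : ℝ → (Fin (m + 1) → ℝ)) (t : ℝ) : Prop :=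
  DifferentiableAt ℝ γ t ∧ ∀ i : Fin (m + 1),
    HasDerivAt (fun s => dv L i (γ s) (deriv γ s) s) (dx L i (γ t) (deriv γ t) t) t

/-- The orbit `γ` escapes to infinity in the tube: for all `t ≥ t₀` it is in the tube of radius
`ε/2`, at the distance at most `1/2` of the curve `(t², 0, …, 0)`, and so is its velocity of
`(2t, 0, …, 0)`. -/
def Escapes {m : ℕ} (ε t₀ : ℝ) (γ : ℝ → (Fin (m + 1) → ℝ)) : Prop :=
  ∀ t, t₀ ≤ t → InTube (ε / 2) (γ t) ∧
    (∀ i, |γ t i - if i = 0 then t ^ 2 else 0| ≤ 1 / 2) ∧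
    ∀ i, |deriv γ t i - if i = 0 then 2 * t else 0| ≤ 1 / 2

lemma el_iff {m : ℕ} (L : (Fin (m + 1) → ℝ) → (Fin (m + 1) → ℝ) → ℝ → ℝ)
    (γ : ℝ → (Fin (m + 1) → ℝ)) :
    (∀ t, EulerLagrangeAt L γ t) ↔ Pool.Agent.W774.TL.IsEL L γ :=
  ⟨fun h => ⟨fun t => (h t).1, fun t i => (h t).2 i⟩, fun h t => ⟨h.1 t, fun i => h.2 t i⟩⟩

lemma escapes_of {m : ℕ} {δ ε t₀ : ℝ} (hδ : 0 < δ) (hδ1 : δ ≤ 1 / 4) (hδε : δ ≤ ε)
    {γ : ℝ → (Fin (m + 1) → ℝ)}
    (h : ∀ t, t₀ ≤ t → Pool.Agent.Run7.h526.AC.Q (t ^ 2) (γ t) < δ ^ 2 / 4 ∧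
      Pool.Agent.Run7.h526.AC.Q (2 * t) (deriv γ t) < 1 / 4) : Escapes ε t₀ γ := by
  intro t ht
  obtain ⟨h1, h2⟩ := h t ht
  refine ⟨fun i hi => ?_, fun i => ?_, fun i => ?_⟩
  · have h3 := Pool.Agent.Run7.h526.AC.Q_ge (t ^ 2) (γ t) i
    rw [if_neg hi, sub_zero] at h3
    have h4 : |γ t i| < δ / 2 := abs_lt_of_sq_lt_sq (by nlinarith) (by linarith)
    linarith
  · have h3 := Pool.Agent.Run7.h526.AC.Q_ge (t ^ 2) (γ t) i
    exact abs_le_of_sq_le_sq (by nlinarith) (by norm_num)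
  · have h3 := Pool.Agent.Run7.h526.AC.Q_ge (2 * t) (deriv γ t) i
    exact abs_le_of_sq_le_sq (by linarith) (by norm_num)

/-- Let `m ≥ 0`, `ε > 0` and `R` be given. There is a `C^∞` function `W` on `T(S^1 × ℝ^m) × 𝕋` with
support in the tube `|x_i| < ε` (`i ≠ 0`) and in `v_0 > R`, such that `|v|^4 + 2|v|^2 + W` has a
positive definite fibre Hessian, `|W| ≤ C (1 + |v|)^2` and `|∂W/∂t| ≤ C (1 + |v|)^3`, and such that
for every `G` there are a time `t₀` and a nonempty open set `U` of positions and velocities with the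
following properties for all functions `f(x,t)` of class `C^2` with `|∂f/∂x_i| ≤ G`.

* The Euler-Lagrange flow of `|v|^4 + 2|v|^2 + W + f` is complete, and all its orbits which are in
  `U` at time `t₀` escape to infinity in the tube: `γ(t)` is near `(t², 0)` and `γ'(t)` near
  `(2t, 0)` for all `t ≥ t₀`.
* If `L` is any function which equals `|v|^4 + 2|v|^2 + W + f` on the tube for `v_0 > R`, then
  through every point of `U` at time `t₀` there is a curve which satisfies the Euler-Lagrange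
  equations of `L` at all times `t ≥ t₀` and which escapes to infinity in the tube. -/
theorem result (m : ℕ) (ε R : ℝ) (hε : 0 < ε) :
    ∃ W : (Fin (m + 1) → ℝ) → (Fin (m + 1) → ℝ) → ℝ → ℝ,
      ContDiff ℝ ∞ (fun q : (Fin (m + 1) → ℝ) × (Fin (m + 1) → ℝ) × ℝ => W q.1 q.2.1 q.2.2) ∧
      Periodic W ∧
      (∀ x v t, W x v t ≠ 0 → InTube ε x ∧ R < v 0) ∧
      (∀ (x v : Fin (m + 1) → ℝ) (t : ℝ) (w : Fin (m + 1) → ℝ), w ≠ 0 →
        0 < deriv (deriv (fun s : ℝ => quartic (v + s • w) + W x (v + s • w) t)) 0) ∧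
      (∃ C : ℝ, ∀ (x v : Fin (m + 1) → ℝ) (t : ℝ), |W x v t| ≤ C * (1 + ‖v‖) ^ 2 ∧
        |deriv (fun s => W x v s) t| ≤ C * (1 + ‖v‖) ^ 3) ∧
      ∀ G : ℝ, ∃ (t₀ : ℝ) (U : Set ((Fin (m + 1) → ℝ) × (Fin (m + 1) → ℝ))),
        IsOpen U ∧ U.Nonempty ∧
        ∀ f : (Fin (m + 1) → ℝ) → ℝ → ℝ,
          ContDiff ℝ 2 (fun q : (Fin (m + 1) → ℝ) × ℝ => f q.1 q.2) →
          (∀ (i : Fin (m + 1)) (x : Fin (m + 1) → ℝ) (t : ℝ), |df f i x t| ≤ G) →
          (∀ (s₀ : ℝ) (x₀ v₀ : Fin (m + 1) → ℝ), ∃ γ : ℝ → (Fin (m + 1) → ℝ),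
            (∀ t, EulerLagrangeAt (fun x v t => quartic v + W x v t + f x t) γ t) ∧
            γ s₀ = x₀ ∧ deriv γ s₀ = v₀) ∧
          (∀ γ : ℝ → (Fin (m + 1) → ℝ),
            (∀ t, EulerLagrangeAt (fun x v t => quartic v + W x v t + f x t) γ t) →
            (γ t₀, deriv γ t₀) ∈ U → Escapes ε t₀ γ) ∧
          ∀ L : (Fin (m + 1) → ℝ) → (Fin (m + 1) → ℝ) → ℝ → ℝ,
            (∀ (x v : Fin (m + 1) → ℝ) (t : ℝ), InTube ε x → R < v 0 →
              L x v t = quartic v + W x v t + f x t) →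
            ∀ p ∈ U, ∃ γ : ℝ → (Fin (m + 1) → ℝ), γ t₀ = p.1 ∧ deriv γ t₀ = p.2 ∧
              (∀ t, t₀ ≤ t → EulerLagrangeAt L γ t) ∧ Escapes ε t₀ γ := by
  obtain ⟨δ, s₀, hδ, hδ1, hδε, hs, hpos, hbd, hmain⟩ :=
    Pool.Agent.Run7.h526.AC.main m ε R hε
  refine ⟨Pool.Agent.Run7.h526.AC.W δ s₀, Pool.Agent.Run7.h526.AC.W_cd hδ hδ1,
    fun x v t k l => Pool.Agent.Run7.h526.AC.W_per δ s₀ x v t k l, ?_, hpos, hbd, fun G => ?_⟩
  · intro x v t h
    obtain ⟨h1, h2⟩ := Pool.Agent.Run7.h526.AC.W_supp hδ x v t h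
    exact ⟨fun i hi => (h1 i hi).trans_le hδε, by linarith⟩
  · obtain ⟨t₀, U, hU1, hU2, ht, h⟩ := hmain G
    refine ⟨t₀, U, hU1, hU2, fun f hf hfG => ?_⟩
    obtain ⟨hc, he⟩ := h f hf hfG
    refine ⟨?_, ?_, ?_⟩
    · intro s₁ x₀ v₀
      obtain ⟨γ, hγ, h1, h2⟩ := hc s₁ x₀ v₀
      exact ⟨γ, (el_iff _ γ).2 hγ, h1, h2⟩
    · intro γ hγ hU
      exact escapes_of hδ hδ1 hδε ((he γ ((el_iff _ γ).1 hγ)).2 hU)
    · intro L hL p hp
      obtain ⟨γ, hγ, h1, h2⟩ := hc t₀ p.1 p.2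
      obtain ⟨hcont, hreg⟩ := he γ hγ
      have hreg' := hreg (by rw [h1, h2]; exact hp)
      have hesc := escapes_of hδ hδ1 hδε hreg'
      refine ⟨γ, h1, h2, fun t ht' => ?_, hesc⟩
      obtain ⟨e1, -, e3⟩ := hesc t ht'
      have e4 := e3 0
      simp only [if_true] at e4
      rw [abs_le] at e4
      exact Pool.Agent.Run7.h526.AC.el_congr (ε := ε) (R := R)
        (L := fun x v t => Pool.Agent.Run7.h526.AC.LL δ s₀ x v t + f x t)
        (fun x v t hx hv => hL x v t hx hv) hγ hcont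
        (fun i hi => (e1 i hi).trans (by linarith)) (by linarith [e4.1])

end Pool.Agent.Results.MP_6acca1_an.TubeAccelerator
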